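import Mathlib

/-! Cellular automata on `{0,1}^ℤ` and their preimage histograms: definitions. -/

namespace Pool.Agent.N321.CAPrefix

open Finset

/-- The cellular automaton on `{0,1}^ℤ` of radius `r` given by the local rule `f`:
`F(x)_i = f(x_i, x_{i+1}, …, x_{i+r})`. -/
def caMap (r : ℕ) (f : (Fin (r + 1) → Bool) → Bool) (x : ℤ → Bool) : ℤ → Bool :=
  fun i => f (fun j : Fin (r + 1) => x (i + (j.val : ℤ)))

/-- Number of `1`-symbols in the word `w`. -/
def weight {m : ℕ} (w : Fin m → Bool) : ℕ := (univ.filter (fun j => w j = true)).card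

/-- `N(F,r,k)`: number of words `w` of length `r+1` with `f(w) = 1` and exactly `k` ones. -/
def preimageCount (r : ℕ) (f : (Fin (r + 1) → Bool) → Bool) (k : ℕ) : ℕ :=
  (univ.filter (fun w : Fin (r + 1) → Bool => f w = true ∧ weight w = k)).card

/-- Local rule of the identity, viewed with radius `r`: `f(w) = w_0`. -/
def idRule (r : ℕ) (w : Fin (r + 1) → Bool) : Bool := w 0

end Pool.Agent.N321.CAPrefix
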