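import Mathlib
import Pool.Agent.N321.CAPrefix.Defs

/-!
A surjective binary cellular automaton of radius 8 whose preimage histogram has a prefix sum
strictly smaller than the one of the identity.

The automaton is a composition of a left permutive rule of width 3,
`u = w0 + (w1 or w2)`, followed by a right permutive rule of width 7.
-/

namespace Pool.Agent.N321.CAPrefix

open Finset

/-! ### Surjectivity of permutive automata -/

lemma caMap_continuous (r : ℕ) (f : (Fin (r + 1) → Bool) → Bool) (i : ℤ) :
    Continuous (fun x : ℤ → Bool => caMap r f x i) := by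
  unfold caMap
  exact (continuous_of_discreteTopology (f := f)).comp
    (continuous_pi fun j => continuous_apply _)

lemma surj_of_local (r : ℕ) (f : (Fin (r + 1) → Bool) → Bool)
    (h : ∀ (y : ℤ → Bool) (n : ℕ) (M : ℤ), ∃ x : ℤ → Bool,
      ∀ i, M ≤ i → i < M + n → caMap r f x i = y i) :
    Function.Surjective (caMap r f) := by
  intro y
  let K : ℕ → Set (ℤ → Bool) := fun n => {x | ∀ i : ℤ, -(n : ℤ) ≤ i → i < n → caMap r f x i = y i}
  have hclosed : ∀ n, IsClosed (K n) := by
    intro n
    have : K n = ⋂ i : ℤ, ⋂ (_ : -(n : ℤ) ≤ i), ⋂ (_ : i < n), {x | caMap r f x i = y i} := by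
      ext x; simp [K]
    rw [this]
    refine isClosed_iInter fun i => isClosed_iInter fun _ => isClosed_iInter fun _ => ?_
    exact isClosed_eq (caMap_continuous r f i) continuous_const
  have hne : ∀ n, (K n).Nonempty := by
    intro n
    obtain ⟨x, hx⟩ := h y (2 * n) (-(n : ℤ))
    refine ⟨x, fun i h1 h2 => hx i h1 ?_⟩
    push_cast
    linarith
  have hmono : ∀ n, K (n + 1) ⊆ K n := by
    intro n x hx i h1 h2
    exact hx i (by push_cast; linarith) (by push_cast; linarith)
  obtain ⟨x, hx⟩ := IsCompact.nonempty_iInter_of_sequence_nonempty_isCompact_isClosed K hmono hne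
    ((hclosed 0).isCompact) hclosed
  refine ⟨x, ?_⟩
  funext i
  have hx' := Set.mem_iInter.mp hx (i.natAbs + 1)
  exact hx' i (by omega) (by omega)

/-- A left permutive rule gives a surjective automaton. -/
lemma surj_left (r : ℕ) (f : (Fin (r + 1) → Bool) → Bool)
    (h : ∀ (w : Fin (r + 1) → Bool) (c : Bool), ∃ b, f (Function.update w 0 b) = c) :
    Function.Surjective (caMap r f) := by
  refine surj_of_local r f ?_
  intro y n
  induction n with
  | zero =>
    intro M
    exact ⟨fun _ => false, fun i h1 h2 => by exfalso; push_cast at h2; linarith⟩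
  | succ n ih =>
    intro M
    obtain ⟨x, hx⟩ := ih (M + 1)
    obtain ⟨b, hb⟩ := h (fun j => x (M + (j.val : ℤ))) (y M)
    refine ⟨Function.update x M b, fun i h1 h2 => ?_⟩
    rcases eq_or_lt_of_le h1 with h1 | h1
    · subst h1
      rw [← hb]
      unfold caMap
      congr 1
      funext j
      by_cases hj : j = 0
      · subst hj; simp
      · have hj' : (0 : ℤ) < (j.val : ℤ) := by
          have : 0 < j.val := Nat.pos_of_ne_zero (fun h => hj (Fin.ext h))
          exact_mod_cast this
        rw [Function.update_of_ne hj, Function.update_of_ne (by linarith : M + (j.val : ℤ) ≠ M)]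
    · rw [← hx i (by linarith) (by push_cast at h2; linarith)]
      unfold caMap
      congr 1
      funext j
      have hj' : (0 : ℤ) ≤ (j.val : ℤ) := by positivity
      rw [Function.update_of_ne]
      linarith

/-- A right permutive rule gives a surjective automaton. -/
lemma surj_right (r : ℕ) (f : (Fin (r + 1) → Bool) → Bool)
    (h : ∀ (w : Fin (r + 1) → Bool) (c : Bool), ∃ b, f (Function.update w (Fin.last r) b) = c) :
    Function.Surjective (caMap r f) := by
  refine surj_of_local r f ?_
  intro y n
  induction n with
  | zero =>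
    intro M
    exact ⟨fun _ => false, fun i h1 h2 => by exfalso; push_cast at h2; linarith⟩
  | succ n ih =>
    intro M
    obtain ⟨x, hx⟩ := ih M
    obtain ⟨b, hb⟩ := h (fun j => x (M + n + (j.val : ℤ))) (y (M + n))
    refine ⟨Function.update x (M + n + r) b, fun i h1 h2 => ?_⟩
    have h2' : i ≤ M + n := by push_cast at h2; linarith
    rcases eq_or_lt_of_le h2' with h2' | h2'
    · subst h2'
      rw [← hb]
      unfold caMap
      congr 1
      funext j
      by_cases hj : j = Fin.last r
      · subst hj; simp
      · have hj' : (j.val : ℤ) < (r : ℤ) := by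
          have h3 := j.isLt
          have : j.val ≠ r := fun h => hj (Fin.ext h)
          have : j.val < r := by omega
          exact_mod_cast this
        rw [Function.update_of_ne hj,
          Function.update_of_ne (by linarith : M + n + (j.val : ℤ) ≠ M + n + r)]
    · rw [← hx i h1 (by linarith)]
      unfold caMap
      congr 1
      funext j
      have hj' : (j.val : ℤ) ≤ (r : ℤ) := by
        have := j.isLt
        exact_mod_cast (by omega : j.val ≤ r)
      rw [Function.update_of_ne]
      linarith

/-! ### The two factors -/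

/-- The table of the right permutive rule, a number with 64 binary digits. -/
def tableH : ℕ := 0xf6f6f6e26fe29202

/-- Left permutive rule of width `3`. -/
def g3 (a b c : Bool) : Bool := xor a (b || c)

/-- Right permutive rule of width `7`. -/
def f7 (u0 u1 u2 u3 u4 u5 u6 : Bool) : Bool :=
  xor u6 (tableH.testBit (32 * u0.toNat + 16 * u1.toNat + 8 * u2.toNat + 4 * u3.toNat
    + 2 * u4.toNat + u5.toNat))

/-- The first factor as a local rule of radius `2`. -/
def ruleG (w : Fin 3 → Bool) : Bool := g3 (w 0) (w 1) (w 2)

/-- The second factor as a local rule of radius `6`. -/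
def ruleF (w : Fin 7 → Bool) : Bool := f7 (w 0) (w 1) (w 2) (w 3) (w 4) (w 5) (w 6)

/-- The composed rule on nine letters. -/
def f9 (w0 w1 w2 w3 w4 w5 w6 w7 w8 : Bool) : Bool :=
  f7 (g3 w0 w1 w2) (g3 w1 w2 w3) (g3 w2 w3 w4) (g3 w3 w4 w5) (g3 w4 w5 w6) (g3 w5 w6 w7)
    (g3 w6 w7 w8)

/-- The composed rule, of radius `8`. -/
def rule (w : Fin 9 → Bool) : Bool :=
  f9 (w 0) (w 1) (w 2) (w 3) (w 4) (w 5) (w 6) (w 7) (w 8)

lemma surj_G : Function.Surjective (caMap 2 ruleG) := by
  refine surj_left 2 ruleG ?_
  intro w c
  refine ⟨xor c (w 1 || w 2), ?_⟩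
  simp only [ruleG, g3]
  rw [Function.update_self, Function.update_of_ne (by decide), Function.update_of_ne (by decide)]
  cases c <;> cases w 1 <;> cases w 2 <;> rfl

lemma surj_F : Function.Surjective (caMap 6 ruleF) := by
  refine surj_right 6 ruleF ?_
  intro w c
  refine ⟨xor c (tableH.testBit (32 * (w 0).toNat + 16 * (w 1).toNat + 8 * (w 2).toNat
    + 4 * (w 3).toNat + 2 * (w 4).toNat + (w 5).toNat)), ?_⟩
  have h6 : (Fin.last 6 : Fin 7) = 6 := rfl
  simp only [ruleF, f7, h6]
  rw [Function.update_self, Function.update_of_ne (by decide), Function.update_of_ne (by decide),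
    Function.update_of_ne (by decide), Function.update_of_ne (by decide),
    Function.update_of_ne (by decide), Function.update_of_ne (by decide)]
  cases c <;> simp

lemma comp_eq : caMap 8 rule = caMap 6 ruleF ∘ caMap 2 ruleG := by
  funext x i
  simp only [caMap, rule, ruleF, ruleG, f9, Function.comp]
  have e : ∀ a b : ℤ, i + a + b = i + (a + b) := fun a b => by ring
  simp only [e]
  rfl

lemma surj_rule : Function.Surjective (caMap 8 rule) := by
  rw [comp_eq]
  exact surj_F.comp surj_G

/-! ### Counting -/

/-- Sum over all words of length `n` by recursion. -/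
def lsum : ℕ → (List Bool → ℕ) → ℕ
  | 0, g => g []
  | n + 1, g => lsum n (fun l => g (true :: l)) + lsum n (fun l => g (false :: l))

lemma sum_eq_lsum (n : ℕ) : ∀ g : List Bool → ℕ,
    ∑ w : Fin n → Bool, g (List.ofFn w) = lsum n g := by
  induction n with
  | zero => intro g; simp [lsum]
  | succ n ih =>
    intro g
    rw [lsum, ← ih, ← ih, ← (Fin.consEquiv (fun _ => Bool)).sum_comp, Fintype.sum_prod_type]
    simp [Fin.consEquiv, List.ofFn_succ]

/-- Evaluation of the nine letter rule on lists. -/
def evalList : List Bool → Bool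
  | [w0, w1, w2, w3, w4, w5, w6, w7, w8] => f9 w0 w1 w2 w3 w4 w5 w6 w7 w8
  | _ => false

/-- Number of ones in a list. -/
def ones : List Bool → ℕ
  | [] => 0
  | b :: l => b.toNat + ones l

lemma weight_eq {n : ℕ} (w : Fin n → Bool) : weight w = ones (List.ofFn w) := by
  induction n with
  | zero => simp [weight, ones]
  | succ n ih =>
    rw [List.ofFn_succ, ones, ← ih]
    unfold weight
    rw [card_filter, card_filter, Fin.sum_univ_succ]
    congr 1
    cases w 0 <;> rfl

lemma prefix_eq (f : (Fin 9 → Bool) → Bool) (e : List Bool → Bool)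
    (he : ∀ w, f w = e (List.ofFn w)) (n : ℕ) :
    ∑ k ∈ range (n + 1), preimageCount 8 f k
      = lsum 9 (fun l => if e l && decide (ones l ≤ n) then 1 else 0) := by
  rw [← sum_eq_lsum]
  have h1 : ∀ k, preimageCount 8 f k
      = ∑ w : Fin 9 → Bool, if f w = true ∧ weight w = k then 1 else 0 := by
    intro k
    unfold preimageCount
    rw [card_filter]
  simp only [h1]
  rw [sum_comm]
  refine sum_congr rfl fun w _ => ?_
  rw [← he, ← weight_eq]
  by_cases hf : f w = true
  · simp only [hf, true_and, Bool.true_and, decide_eq_true_eq]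
    rw [Finset.sum_ite_eq]
    simp only [mem_range, Nat.lt_succ_iff]
  · simp [hf]

lemma rule_eval (w : Fin 9 → Bool) : rule w = evalList (List.ofFn w) := by
  simp only [rule, List.ofFn_succ, List.ofFn_zero, evalList]
  rfl

lemma id_eval (w : Fin 9 → Bool) : idRule 8 w = (List.ofFn w).headD false := by
  simp [idRule, List.ofFn_succ]

lemma count_rule :
    lsum 9 (fun l => if evalList l && decide (ones l ≤ 4) then 1 else 0) = 92 := by
  decide +kernel

lemma count_id :
    lsum 9 (fun l => if l.headD false && decide (ones l ≤ 4) then 1 else 0) = 93 := by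
  decide +kernel

/-- There are a radius `r`, a surjective binary cellular automaton of radius `r` and some
`n ≤ r+1` for which the prefix sum of the preimage histogram is strictly smaller than the one of
the identity. -/
theorem prefix_counterexample :
    ∃ (r : ℕ) (f : (Fin (r + 1) → Bool) → Bool), Function.Surjective (caMap r f) ∧
      ∃ n ≤ r + 1, ∑ k ∈ range (n + 1), preimageCount r f k
        < ∑ k ∈ range (n + 1), preimageCount r (idRule r) k := by
  refine ⟨8, rule, surj_rule, 4, by norm_num, ?_⟩
  rw [prefix_eq rule evalList rule_eval 4, prefix_eq (idRule 8) (fun l => l.headD false) id_eval 4,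
    count_rule, count_id]
  norm_num

end Pool.Agent.N321.CAPrefix
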